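import Mathlib
import Pool.Agent.N70.PP.Stm
import Pool.Agent.H43X.VocD

/-!
Project AD2: the main theorem for almost all degrees (statement).
-/

set_option autoImplicit false

namespace Pool.Agent.XE31.D2

open Polynomial Pool.Agent.H391R2 Pool.Agent.H391R2.T4 Pool.Agent.Y793 Pool.Agent.Y140.AW
open Pool.Agent.H43X.VocD (Degrees Bound)

/-- The main theorem for almost all degrees and all characters. -/
def St_mD : Prop :=
  ∀ (p : ℕ) [Fact p.Prime] (K L : Type) [Field K] [CharP K p] [Infinite K] [Field L]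
    [Algebra K L] [FiniteDimensional K L] [IsGalois K L] (B : Type) [Group B] [Finite B]
    (a : B →* (L ≃ₐ[K] L)), Function.Surjective a → commutator a.ker = ⊤ →
    WeakSol K L B a → ∀ b r : ℕ, Even b → 4 ≤ b → Odd r → Bound (Nat.card a.ker) b ≤ r →
    ∃ n₀ : ℕ, ∀ n ≥ n₀, n ∈ Degrees p (b * r) → ∀ χ : (L ≃ₐ[K] L) →* ℤˣ,
      RegSol K L (AltTw a χ n) (twProj a χ n)

end Pool.Agent.XE31.D2
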