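import Mathlib
import Pool.Agent.H43X.Alm
import Pool.Agent.XE31.D2.KerB

/-!
Project AD2: the kernel theorem for almost all degrees, from the pieces.
-/

set_option autoImplicit false

namespace Pool.Agent.XE31.D2

open Pool.Agent.H391R2 Pool.Agent.H391R2.T4 Pool.Agent.Y793
open Pool.Agent.H43X
open Pool.Agent.H43X.VocD (Degrees Bound)
open Pool.Agent.N70.EP.Voc
open Pool.Agent.N70.PP.Voc
open Pool.Agent.N70.PP

theorem mD_of (hG : S_GRB) : St_mD := by
  intro p _ K L _ _ _ _ _ _ _ B _ _ a ha hperf hw b r hb hb4 hr hr2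
  obtain ⟨n₀, h⟩ := mainE hG p K L B a ha hperf hw b r hb hb4 hr hr2
  exact ⟨n₀, fun n hn hd χ => h n hn (degE_of hd) χ⟩

theorem mem_of_degE {p d n : ℕ} (h : DegE p d n) : n ∈ Degrees p d := by
  change if p = 2 then n % (8 * d) = d else n % (2 * d * p) = d * p
  split_ifs with h2
  · exact h.1 h2
  · rw [mul_assoc]
    exact h.2 h2

/-- The kernel theorem for almost all degrees. -/
theorem kernels_of (hDEN : S_DEN) (hG : S_GRB) (p : ℕ) [Fact p.Prime] :
    ∃ A : (∀ (G : Type) [Group G], Set ℕ),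
      (∀ (G : Type) [Group G], VocD.AlmostAllMultiples (Nat.lcm 2 p) (fun n => n ∈ A G)) ∧
      (∀ (G : Type) [Group G] (b r : ℕ), Even b → 4 ≤ b → Odd r → Bound (Nat.card G) b ≤ r →
        ∃ n₀ : ℕ, ∀ n ≥ n₀, n ∈ Degrees p (b * r) → n ∈ A G) ∧
      (∀ (G : Type) [Group G], Centreless G → commutator G = ⊤ → ∀ n ∈ A G,
        GeneralTheorem p G (AltWreath G n)) ∧
      ∀ (T : Type) [Group T], KernelsD A p T → KernelTheorem p T := by
  refine ⟨fun G _ => A0 p G, fun G _ => ?_, fun G _ b r hb hb4 hr hr' => ?_,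
    fun G _ hG' hP n hn => ?_, fun T _ hT => ?_⟩
  · refine almost hDEN p (fun n => n ∈ A0 p G) (Bound (Nat.card G)) fun b r hb hb4 hr hr' => ?_
    obtain ⟨n₀, h⟩ := goodP_of (mD_of hG) p G b r hb hb4 hr hr'
    exact ⟨n₀, fun n hn hd => h n hn (mem_of_degE hd)⟩
  · exact goodP_of (mD_of hG) p G b r hb hb4 hr hr'
  · exact generalTheorem_of G hG' n (hn hG' hP)
  · obtain ⟨h1, -, h2⟩ := kernels_mainD p (fun G _ => A0 p G) (fun G _ hG' hP n hn => hn hG' hP) T hT
    exact kernelTheorem_of h1 h2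

end Pool.Agent.XE31.D2
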